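import Mathlib

/-!
# The probability of a lonely walker is not monotone

For `64` independent simple random walks on `ℤ` started at the origin, the probability that at
least one walker is alone at its site is larger after `6` steps than after `7` steps.

The number of choices of the steps for which no walker is lonely is computed exactly. If `N A L n`
is the number of choices for `n` walkers which all end in the set of sites `A`, such that no site
of `L` contains exactly one walker, and if `c s` is the number of paths that end in `s`, then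
`N A (L ∪ {s}) (n + 1) = N A L (n + 1) - (n + 1) * c s * N (A \ {s}) L n`.
-/

set_option autoImplicit false

open Finset

namespace Pool.Agent.Results.MP_ca7dc8_pr.SixtyFourWalkers

/-- The `2 d` possible steps of the simple random walk on `ℤ^d`: `(i, true)` stands for the unit
vector `e_i` and `(i, false)` for `-e_i`. -/
def step {d : ℕ} (s : Fin d × Bool) : Fin d → ℤ := Pi.single s.1 (if s.2 then 1 else -1)

/-- The position, after `t` steps, of a walker that starts at the origin and makes the
steps `w 0, …, w (t - 1)`. -/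
def pos {d t : ℕ} (w : Fin t → Fin d × Bool) : Fin d → ℤ := ∑ k, step (w k)

/-- Walker `i` is lonely after `t` steps: no other walker is at the same site. Here `ω j` is the
sequence of the steps of walker `j`. -/
def Lonely {n d t : ℕ} (ω : Fin n → Fin t → Fin d × Bool) (i : Fin n) : Prop :=
  ∀ j, j ≠ i → pos (ω j) ≠ pos (ω i)

open Classical in
/-- The probability that at least one of `n` independent simple random walks on `ℤ^d`, started at
the origin, is lonely after `t` steps: the proportion of the `(2 d)^(n t)` equally likely choices of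
all steps for which some walker is lonely. -/
noncomputable def prob (n d t : ℕ) : ℝ :=
  ((univ.filter fun ω : Fin n → Fin t → Fin d × Bool => ∃ i, Lonely ω i).card : ℝ) /
    (Fintype.card (Fin n → Fin t → Fin d × Bool) : ℝ)

/-! ### Counting -/

section count

variable {τ σ : Type} [Fintype τ] [DecidableEq σ] (f : τ → σ)

/-- The number of walkers at `s`. -/
def cnt {n : ℕ} (ω : Fin n → τ) (s : σ) : ℕ := ∑ j, if f (ω j) = s then 1 else 0

/-- All walkers are in `A` and no site of `L` has exactly one walker. -/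
def Good {n : ℕ} (A L : Finset σ) (ω : Fin n → τ) : Prop :=
  (∀ j, f (ω j) ∈ A) ∧ ∀ s ∈ L, cnt f ω s ≠ 1

instance {n : ℕ} (A L : Finset σ) (ω : Fin n → τ) : Decidable (Good f A L ω) := by
  unfold Good; infer_instance

/-- The number of good choices. -/
def N (A L : Finset σ) (n : ℕ) : ℕ := ∑ ω : Fin n → τ, if Good f A L ω then 1 else 0

/-- The number of elements over a site. -/
def c (s : σ) : ℕ := ∑ x : τ, if f x = s then 1 else 0

theorem cnt_insert {n : ℕ} (i : Fin (n + 1)) (x : τ) (g : Fin n → τ) (s : σ) :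
    cnt f (i.insertNth x g : Fin (n + 1) → τ) s = (if f x = s then 1 else 0) + cnt f g s := by
  rw [cnt, Fin.sum_univ_succAbove _ i]
  simp [cnt]

theorem cnt_eq_one {n : ℕ} (ω : Fin n → τ) (s : σ) (h : cnt f ω s = 1) :
    ∃ i, f (ω i) = s ∧ ∀ j, j ≠ i → f (ω j) ≠ s := by
  rw [cnt, ← card_filter, card_eq_one] at h
  obtain ⟨i, hi⟩ := h
  have h1 : ∀ j, f (ω j) = s ↔ j = i := fun j => by
    have := Finset.ext_iff.1 hi j
    simpa using this
  exact ⟨i, (h1 i).2 rfl, fun j hj hjs => hj ((h1 j).1 hjs)⟩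

theorem cnt_of_unique {n : ℕ} (ω : Fin n → τ) (s : σ) (i : Fin n) (hi : f (ω i) = s)
    (h : ∀ j, j ≠ i → f (ω j) ≠ s) : cnt f ω s = 1 := by
  rw [cnt, sum_eq_single i]
  · simp [hi]
  · intro j _ hj
    simp [h j hj]
  · intro h; exact absurd (mem_univ _) h

theorem N_rec {n : ℕ} {A L : Finset σ} {s : σ} (hA : s ∈ A) (hL : s ∉ L) :
    N f A L (n + 1) = N f A (insert s L) (n + 1) + (n + 1) * c f s * N f (A.erase s) L n := by
  classical
  have h1 : ∀ ω : Fin (n + 1) → τ, (if Good f A L ω then 1 else 0) =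
      (if Good f A (insert s L) ω then 1 else 0) +
        ∑ i : Fin (n + 1), (if Good f A L ω ∧ f (ω i) = s ∧ ∀ j, j ≠ i → f (ω j) ≠ s
          then 1 else 0) := by
    intro ω
    by_cases hg : Good f A L ω
    · by_cases hs : cnt f ω s = 1
      · obtain ⟨i, hi, hij⟩ := cnt_eq_one f ω s hs
        have h2 : ¬ Good f A (insert s L) ω := fun h => h.2 s (mem_insert_self _ _) hs
        rw [if_pos hg, if_neg h2, sum_eq_single i]
        · rw [if_pos ⟨hg, hi, hij⟩]
        · intro j _ hj
          rw [if_neg]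
          rintro ⟨-, h3, -⟩
          exact hij j hj h3
        · intro h; exact absurd (mem_univ _) h
      · have h2 : Good f A (insert s L) ω := by
          refine ⟨hg.1, fun s' hs' => ?_⟩
          rcases mem_insert.1 hs' with rfl | h
          · exact hs
          · exact hg.2 s' h
        have h0 : ∑ i : Fin (n + 1), (if Good f A L ω ∧ f (ω i) = s ∧ ∀ j, j ≠ i → f (ω j) ≠ s
            then 1 else 0) = 0 := by
          refine sum_eq_zero fun i _ => ?_
          rw [if_neg]
          rintro ⟨-, h3, h4⟩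
          exact hs (cnt_of_unique f ω s i h3 h4)
        rw [if_pos hg, if_pos h2, h0]
    · have h2 : ¬ Good f A (insert s L) ω := fun h =>
        hg ⟨h.1, fun s' hs' => h.2 s' (mem_insert_of_mem hs')⟩
      simp [hg, h2]
  have h2 : ∀ i : Fin (n + 1), (∑ ω : Fin (n + 1) → τ,
      (if Good f A L ω ∧ f (ω i) = s ∧ ∀ j, j ≠ i → f (ω j) ≠ s then 1 else 0)) =
      c f s * N f (A.erase s) L n := by
    intro i
    rw [← (Fin.insertNthEquiv (fun _ => τ) i).sum_comp, Fintype.sum_prod_type, c, N, sum_mul_sum]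
    refine sum_congr rfl fun x _ => sum_congr rfl fun g _ => ?_
    have h3 : (Good f A L ((Fin.insertNthEquiv (fun _ => τ) i) (x, g)) ∧
        f ((Fin.insertNthEquiv (fun _ => τ) i) (x, g) i) = s ∧
        ∀ j, j ≠ i → f ((Fin.insertNthEquiv (fun _ => τ) i) (x, g) j) ≠ s) ↔
        (f x = s ∧ Good f (A.erase s) L g) := by
      simp only [Fin.insertNthEquiv_apply, Fin.insertNth_apply_same]
      have h4 : (∀ j, j ≠ i → f ((i.insertNth x g : Fin (n + 1) → τ) j) ≠ s) ↔
          ∀ j, f (g j) ≠ s := by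
        constructor
        · intro h j
          have := h (i.succAbove j) (Fin.succAbove_ne i j)
          simpa using this
        · intro h j hj
          obtain ⟨k, rfl⟩ := Fin.exists_succAbove_eq hj
          simpa using h k
      have h5 : (∀ j, f ((i.insertNth x g : Fin (n + 1) → τ) j) ∈ A) ↔
          f x ∈ A ∧ ∀ j, f (g j) ∈ A := by
        rw [Fin.forall_iff_succAbove i]
        simp
      constructor
      · rintro ⟨h6, h7, h8⟩
        refine ⟨h7, fun j => mem_erase.2 ⟨h4.1 h8 j, (h5.1 h6.1).2 j⟩, fun s' hs' => ?_⟩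
        have h9 : cnt f (i.insertNth x g : Fin (n + 1) → τ) s' ≠ 1 := h6.2 s' hs'
        rw [cnt_insert, if_neg (fun h => hL (by rw [← h7, h]; exact hs')), zero_add] at h9
        exact h9
      · rintro ⟨h6, h7⟩
        refine ⟨⟨h5.2 ⟨h6 ▸ hA, fun j => (mem_erase.1 (h7.1 j)).2⟩, fun s' hs' => ?_⟩, h6,
          h4.2 fun j => (mem_erase.1 (h7.1 j)).1⟩
        show cnt f (i.insertNth x g : Fin (n + 1) → τ) s' ≠ 1
        rw [cnt_insert, if_neg (fun h => hL (by rw [← h6, h]; exact hs')), zero_add]
        exact h7.2 s' hs'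
    by_cases h6 : f x = s
    · by_cases h7 : Good f (A.erase s) L g
      · rw [if_pos (h3.2 ⟨h6, h7⟩), if_pos h6, if_pos h7, mul_one]
      · rw [if_neg (fun h => h7 (h3.1 h).2), if_neg h7, mul_zero]
    · rw [if_neg (fun h => h6 (h3.1 h).1), if_neg h6, zero_mul]
  rw [N, sum_congr rfl fun ω _ => h1 ω, sum_add_distrib, sum_comm, sum_congr rfl fun i _ => h2 i]
  simp only [sum_const, card_univ, Fintype.card_fin, smul_eq_mul, N, mul_assoc]

/-- The number of elements over a set of sites. -/
def ca (A : Finset σ) : ℕ := ∑ x : τ, if f x ∈ A then 1 else 0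

theorem ca_erase {A : Finset σ} {s : σ} (hs : s ∈ A) : ca f (A.erase s) = ca f A - c f s := by
  have : ca f A = ca f (A.erase s) + c f s := by
    rw [ca, ca, c, ← sum_add_distrib]
    refine sum_congr rfl fun x _ => ?_
    by_cases h : f x = s
    · simp [h, hs]
    · simp [h]
  omega

theorem N_nil (A : Finset σ) (n : ℕ) : N f A ∅ n = ca f A ^ n := by
  classical
  have h : ∀ ω : Fin n → τ, (if Good f A ∅ ω then 1 else 0) =
      ∏ j, if f (ω j) ∈ A then 1 else 0 := by
    intro ω
    by_cases h1 : ∀ j, f (ω j) ∈ A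
    · rw [if_pos ⟨h1, by simp⟩]
      symm
      exact prod_eq_one fun j _ => if_pos (h1 j)
    · rw [if_neg (fun h => h1 h.1)]
      push Not at h1
      obtain ⟨j, hj⟩ := h1
      exact (prod_eq_zero (mem_univ j) (if_neg hj)).symm
  rw [N, sum_congr rfl fun ω _ => h ω, ca]
  have := (prod_univ_sum (fun _ : Fin n => (univ : Finset τ))
    (fun (_ : Fin n) (x : τ) => if f x ∈ A then 1 else 0)).symm
  simpa using this

theorem N_zero (A L : Finset σ) : N f A L 0 = 1 := by
  have h : ∀ ω : Fin 0 → τ, Good f A L ω := fun ω =>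
    ⟨fun j => j.elim0, fun s _ => by simp [cnt]⟩
  simp [N, h]

end count

/-- The solution of the recursion. -/
def F : List ℕ → ℕ → ℕ → ℤ
  | [], a, n => ((a ^ n : ℕ) : ℤ)
  | _ :: _, _, 0 => 1
  | w :: l, a, n + 1 => F l a (n + 1) - ((n + 1) * w : ℕ) * F l (a - w) n

theorem F_zero (l : List ℕ) (a : ℕ) : F l a 0 = 1 := by
  cases l <;> simp [F]

theorem N_eq_F {τ σ : Type} [Fintype τ] [DecidableEq σ] (f : τ → σ) :
    ∀ (l : List σ) (A : Finset σ) (n : ℕ), l.Nodup → (∀ s ∈ l, s ∈ A) →
      (N f A l.toFinset n : ℤ) = F (l.map (c f)) (ca f A) n := by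
  intro l
  induction l with
  | nil =>
    intro A n _ _
    simp [N_nil, F]
  | cons s l ih =>
    intro A n hl hA
    cases n with
    | zero => rw [N_zero, F_zero]; rfl
    | succ n =>
      rw [List.nodup_cons] at hl
      have h1 := N_rec f (n := n) (A := A) (L := l.toFinset) (hA s (List.mem_cons_self))
        (by simpa using hl.1)
      have h2 := ih A (n + 1) hl.2 fun s' hs' => hA s' (List.mem_cons_of_mem _ hs')
      have h3 := ih (A.erase s) n hl.2 fun s' hs' => mem_erase.2
        ⟨fun h => hl.1 (h ▸ hs'), hA s' (List.mem_cons_of_mem _ hs')⟩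
      rw [ca_erase f (hA s (List.mem_cons_self))] at h3
      rw [List.toFinset_cons, List.map_cons, F, ← h2, ← h3, h1]
      push_cast
      ring

/-- The possible positions after `t` steps. -/
def sites (t : ℕ) : List (Fin 1 → ℤ) :=
  (List.range (t + 1)).map fun k => fun _ => 2 * (k : ℤ) - t

theorem c6 : (sites 6).map (c (pos (d := 1) (t := 6))) = [1, 6, 15, 20, 15, 6, 1] := by
  decide +kernel

theorem c7 : (sites 7).map (c (pos (d := 1) (t := 7))) = [1, 7, 21, 35, 35, 21, 7, 1] := by
  decide +kernel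

theorem nodup6 : (sites 6).Nodup := by decide +kernel

theorem nodup7 : (sites 7).Nodup := by decide +kernel

theorem mem6 : ∀ x : Fin 6 → Fin 1 × Bool, pos x ∈ sites 6 := by decide +kernel

theorem mem7 : ∀ x : Fin 7 → Fin 1 × Bool, pos x ∈ sites 7 := by decide +kernel

theorem compare : (2 : ℤ) ^ 64 * F [1, 6, 15, 20, 15, 6, 1] 64 64 <
    F [1, 7, 21, 35, 35, 21, 7, 1] 128 64 := by
  decide +kernel

theorem ca_univ {τ σ : Type} [Fintype τ] [DecidableEq σ] (f : τ → σ) (A : Finset σ)
    (h : ∀ x, f x ∈ A) : ca f A = Fintype.card τ := by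
  simp [ca, h]

/-- If all sites that can be reached are in `l`, then the choices without a lonely walker are the
good ones. -/
theorem no_lonely_iff {n t : ℕ} (l : List (Fin 1 → ℤ))
    (hm : ∀ x : Fin t → Fin 1 × Bool, pos x ∈ l) (ω : Fin n → Fin t → Fin 1 × Bool) :
    (¬ ∃ i, Lonely ω i) ↔ Good pos l.toFinset l.toFinset ω := by
  constructor
  · intro h
    refine ⟨fun j => List.mem_toFinset.2 (hm _), fun s _ hs => h ?_⟩
    obtain ⟨i, hi, hij⟩ := cnt_eq_one pos ω s hs
    exact ⟨i, fun j hj => hi ▸ hij j hj⟩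
  · rintro h ⟨i, hi⟩
    exact h.2 (pos (ω i)) (List.mem_toFinset.2 (hm _)) (cnt_of_unique pos ω _ i rfl hi)

theorem prob_eq {n t : ℕ} (l : List (Fin 1 → ℤ))
    (hm : ∀ x : Fin t → Fin 1 × Bool, pos x ∈ l) :
    prob n 1 t = 1 - (N (pos (d := 1) (t := t)) l.toFinset l.toFinset n : ℝ) /
      ((2 ^ t : ℝ) ^ n) := by
  classical
  have hc : (Fintype.card (Fin n → Fin t → Fin 1 × Bool) : ℝ) = (2 ^ t : ℝ) ^ n := by
    simp [Fintype.card_pi]
  have h1 : ((univ.filter fun ω : Fin n → Fin t → Fin 1 × Bool => ∃ i, Lonely ω i).card : ℝ) +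
      (N (pos (d := 1) (t := t)) l.toFinset l.toFinset n : ℝ) =
      (Fintype.card (Fin n → Fin t → Fin 1 × Bool) : ℝ) := by
    have h2 : N (pos (d := 1) (t := t)) l.toFinset l.toFinset n =
        (univ.filter fun ω : Fin n → Fin t → Fin 1 × Bool => ¬ ∃ i, Lonely ω i).card := by
      rw [N, card_filter]
      refine sum_congr rfl fun ω _ => ?_
      by_cases h : Good pos l.toFinset l.toFinset ω
      · rw [if_pos h, if_pos ((no_lonely_iff l hm ω).2 h)]
      · rw [if_neg h, if_neg (fun h' => h ((no_lonely_iff l hm ω).1 h'))]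
    rw [h2, ← Nat.cast_add, card_filter_add_card_filter_not, card_univ]
  have h3 : (Fintype.card (Fin n → Fin t → Fin 1 × Bool) : ℝ) ≠ 0 := by
    rw [hc]; positivity
  rw [prob, ← hc]
  field_simp
  linarith

theorem final (x y : ℝ) (n : ℕ) (h : (2 : ℝ) ^ n * x < y) :
    1 - y / ((2 : ℝ) ^ 7) ^ n < 1 - x / ((2 : ℝ) ^ 6) ^ n := by
  have h8 : ((2 : ℝ) ^ 7) ^ n = 2 ^ n * ((2 : ℝ) ^ 6) ^ n := by
    rw [← mul_pow]; norm_num
  have h9 : (0 : ℝ) < ((2 : ℝ) ^ 6) ^ n := by positivity
  have h10 : x / ((2 : ℝ) ^ 6) ^ n < y / ((2 : ℝ) ^ 7) ^ n := by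
    rw [h8, div_lt_div_iff₀ h9 (by positivity)]
    calc x * (2 ^ n * ((2 : ℝ) ^ 6) ^ n) = (2 ^ n * x) * ((2 : ℝ) ^ 6) ^ n := by ring
      _ < y * ((2 : ℝ) ^ 6) ^ n := mul_lt_mul_of_pos_right h h9
  linarith

/-- **The probability of a lonely walker is not monotone.** Among `64` independent simple random
walks on `ℤ`, a lonely walker is strictly more likely after `6` steps than after `7` steps. -/
theorem result : prob 64 1 7 < prob 64 1 6 := by
  have h6 := N_eq_F (pos (d := 1) (t := 6)) (sites 6) (sites 6).toFinset 64 nodup6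
    fun s hs => List.mem_toFinset.2 hs
  have h7 := N_eq_F (pos (d := 1) (t := 7)) (sites 7) (sites 7).toFinset 64 nodup7
    fun s hs => List.mem_toFinset.2 hs
  rw [c6, ca_univ _ _ fun x => List.mem_toFinset.2 (mem6 x)] at h6
  rw [c7, ca_univ _ _ fun x => List.mem_toFinset.2 (mem7 x)] at h7
  have e6 : Fintype.card (Fin 6 → Fin 1 × Bool) = 64 := by simp
  have e7 : Fintype.card (Fin 7 → Fin 1 × Bool) = 128 := by simp
  rw [e6] at h6
  rw [e7] at h7
  have h := compare
  rw [← h6, ← h7] at h
  have h' : (2 : ℝ) ^ 64 * (N (pos (d := 1) (t := 6)) (sites 6).toFinset (sites 6).toFinset 64 : ℝ) <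
      (N (pos (d := 1) (t := 7)) (sites 7).toFinset (sites 7).toFinset 64 : ℝ) := by
    exact_mod_cast h
  rw [prob_eq (sites 6) mem6, prob_eq (sites 7) mem7]
  exact final _ _ 64 h'

end Pool.Agent.Results.MP_ca7dc8_pr.SixtyFourWalkers
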